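import Pool.Agent.K7.H50.OG.Defs

set_option autoImplicit false

/-! Helpers for the word analysis. -/

namespace Pool.Agent.K7.H50.OG

theorem mono_gap {k : ℕ} {f : ℕ → ℕ} (h : ∀ i j, 1 ≤ i → i < j → j ≤ k → f i < f j) {i j : ℕ}
    (hi : 1 ≤ i) (hij : i ≤ j) (hj : j ≤ k) : f i + (j - i) ≤ f j := by
  induction j, hij using Nat.le_induction with
  | base => simp
  | succ j hij ih =>
    have h1 := ih (by omega)
    have h2 := h j (j + 1) (by omega) (by omega) hj
    omega

/-- the cut index of the threshold `t`: exactly the vertices `1..u` are mapped to `≤ t` -/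
theorem cut {k : ℕ} {f : ℕ → ℕ} (h : ∀ i j, 1 ≤ i → i < j → j ≤ k → f i < f j) (t : ℕ) :
    ∃ u, u ≤ k ∧ (∀ i, 1 ≤ i → i ≤ u → f i ≤ t) ∧ ∀ i, u < i → i ≤ k → t < f i := by
  induction k with
  | zero => exact ⟨0, le_rfl, fun i h1 h2 => by omega, fun i h1 h2 => by omega⟩
  | succ k ih =>
    obtain ⟨u, h1, h2, h3⟩ := ih (fun i j a b c => h i j a b (by omega))
    by_cases hk : f (k + 1) ≤ t
    · refine ⟨k + 1, le_rfl, fun i h4 h5 => ?_, fun i h4 h5 => by omega⟩
      rcases Nat.lt_or_ge i (k + 1) with h6 | h6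
      · exact le_trans (h i (k + 1) h4 h6 le_rfl).le hk
      · have : i = k + 1 := by omega
        rw [this]
        exact hk
    · refine ⟨u, by omega, h2, fun i h4 h5 => ?_⟩
      rcases Nat.lt_or_ge i (k + 1) with h6 | h6
      · exact h3 i h4 (by omega)
      · have : i = k + 1 := by omega
        rw [this]
        omega

/-- a run `t+1..t'` between two cut indices `u ≤ u'` contains at least `u' - u` positions -/
theorem run_card {k : ℕ} {f : ℕ → ℕ} (h : ∀ i j, 1 ≤ i → i < j → j ≤ k → f i < f j) {t t' u u' : ℕ}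
    (hu' : u' ≤ k) (huu : u ≤ u') (h1 : ∀ i, u < i → i ≤ k → t < f i)
    (h2 : ∀ i, 1 ≤ i → i ≤ u' → f i ≤ t') : u' + t ≤ u + t' ∨ u' = u := by
  rcases Nat.lt_or_ge u u' with h3 | h3
  · left
    have h4 := h1 (u + 1) (by omega) (by omega)
    have h5 := h2 u' (by omega) le_rfl
    have h6 := mono_gap h (show 1 ≤ u + 1 by omega) (show u + 1 ≤ u' by omega) hu'
    omega
  · right
    omega

/-- connectedness: a nonempty set closed under adjacency is everything -/
theorem Con.closed {k : ℕ} {E : Gr} (h : Con k E) (S : ℕ → Prop)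
    (hc : ∀ i j, 1 ≤ i → i < j → j ≤ k → E i j → (S i ↔ S j)) {i : ℕ} (hi : 1 ≤ i) (hik : i ≤ k)
    (hS : S i) : ∀ j, 1 ≤ j → j ≤ k → S j := by
  intro j hj hjk
  by_contra hSj
  obtain ⟨a, b, h1, h2, h3, h4, h5⟩ := h S ⟨i, hi, hik, hS⟩ ⟨j, hj, hjk, hSj⟩
  have := hc a b h1 h2 h3 h4
  tauto

/-- the five classes contain no blue triangle -/
theorem no_blu (c : ℕ → Fin 5) (N : ℕ) : ¬ Blu 3 N (fun x y => rg (c x) (c y)) := by
  rintro ⟨g, -, h⟩
  have h1 := (h 1 2 (by norm_num) (by norm_num) (by norm_num)).2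
  have h2 := (h 1 3 (by norm_num) (by norm_num) (by norm_num)).2
  have h3 := (h 2 3 (by norm_num) (by norm_num) (by norm_num)).2
  have key : ∀ a b c : Fin 5, ¬ rg a b → ¬ rg a c → ¬ rg b c → False := by decide
  exact key _ _ _ h1 h2 h3

/-- JOB DEAD -/
theorem stDead : StDead := by
  rintro k E hk ⟨c, hc⟩ hG
  have e : (3 - 1) * (k - 1) + 1 = 2 * k - 1 := by omega
  rcases hG (fun x y => rg (c x) (c y)) with h | h
  · rw [e] at h
    exact hc h
  · exact no_blu c _ h

end Pool.Agent.K7.H50.OG
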