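import Mathlib

set_option autoImplicit false

/-!
# Project OG (MP_23a060_co): heredity of ordered Ramsey goodness

Vertices are `1, ..., k`; of an ordered graph `E : ℕ → ℕ → Prop` only the values `E i j` with
`1 ≤ i < j ≤ k` matter. `R` is the red graph on `1, ..., N`.
-/

namespace Pool.Agent.K7.H50.OG

/-- graphs on initial segments of the natural numbers -/
abbrev Gr := ℕ → ℕ → Prop

/-- `R` (on `1..N`) contains an ordered copy of `E` (on `1..k`) -/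
def Cop (k N : ℕ) (E R : Gr) : Prop := ∃ f : ℕ → ℕ,
  (∀ i, 1 ≤ i → i ≤ k → 1 ≤ f i ∧ f i ≤ N) ∧
  (∀ i j, 1 ≤ i → i < j → j ≤ k → f i < f j) ∧
  ∀ i j, 1 ≤ i → i < j → j ≤ k → E i j → R (f i) (f j)

/-- a blue complete graph on `n` vertices in `1..N` -/
def Blu (n N : ℕ) (R : Gr) : Prop := ∃ g : ℕ → ℕ,
  (∀ i, 1 ≤ i → i ≤ n → 1 ≤ g i ∧ g i ≤ N) ∧
  ∀ i j, 1 ≤ i → i < j → j ≤ n → g i < g j ∧ ¬ R (g i) (g j)

/-- connected -/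
def Con (k : ℕ) (E : Gr) : Prop := ∀ S : ℕ → Prop,
  (∃ i, 1 ≤ i ∧ i ≤ k ∧ S i) → (∃ i, 1 ≤ i ∧ i ≤ k ∧ ¬ S i) →
  ∃ i j, 1 ≤ i ∧ i < j ∧ j ≤ k ∧ E i j ∧ (S i ↔ ¬ S j)

/-- `n`-good -/
def Gd (n k : ℕ) (E : Gr) : Prop := ∀ R : Gr,
  Cop k ((n - 1) * (k - 1) + 1) E R ∨ Blu n ((n - 1) * (k - 1) + 1) R

/-- equal or neighbouring classes on the cycle of length five -/
def rg (a b : Fin 5) : Prop := a = b ∨ a = b + 1 ∨ b = a + 1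

instance (a b : Fin 5) : Decidable (rg a b) := by unfold rg; infer_instance

/-- some ring word of length `2 k - 1` contains no copy of `E` -/
def Dead (k : ℕ) (E : Gr) : Prop := ∃ c : ℕ → Fin 5,
  ¬ Cop k (2 * k - 1) E (fun x y => rg (c x) (c y))

/-- no joint: every inner vertex is jumped over by an edge -/
def JF (k : ℕ) (E : Gr) : Prop := ∀ c, 1 < c → c < k →
  ∃ i j, 1 ≤ i ∧ i < c ∧ c < j ∧ j ≤ k ∧ E i j

/-- the edges inside `lo..hi` that leave `u..v` go to `r` -/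
def Pend (E : Gr) (lo hi u v r : ℕ) : Prop := ∀ i j, lo ≤ i → i < j → j ≤ hi → E i j →
  ((u ≤ i ∧ i ≤ v) → ¬ (u ≤ j ∧ j ≤ v) → j = r) ∧
  ((u ≤ j ∧ j ≤ v) → ¬ (u ≤ i ∧ i ≤ v) → i = r)

/-- the double star with the centres `a`, `a + 1` -/
def DD (a : ℕ) : Gr := fun i j => (j = a + 1 ∧ i ≤ a) ∨ (i = a ∧ a + 1 ≤ j)

/-- `k` is a leaf attached to `a`, and `b > a` is the smallest neighbour of `1` -/
structure Lf (k : ℕ) (E : Gr) (a b : ℕ) : Prop where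
  con : Con k E
  ha : 1 < a
  hab : a < b
  hb : b < k
  e1 : E 1 b
  ek : E a k
  uk : ∀ i, 1 ≤ i → i < k → E i k → i = a
  u1 : ∀ j, 1 < j → j ≤ k → E 1 j → b ≤ j

/-- moreover `1` is a leaf -/
structure Lf2 (k : ℕ) (E : Gr) (a b : ℕ) : Prop extends Lf k E a b where
  v1 : ∀ j, 1 < j → j ≤ k → E 1 j → j = b

/-! ### words (every job: exhibit the word, see the sketch) -/

/-- JOB MIR -/
def StMir : Prop := ∀ (k : ℕ) (E : Gr), Dead k (fun i j => E (k + 1 - j) (k + 1 - i)) → Dead k E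

/-- JOB A: word `0^(c-1) 1 3^(c-1) 2^(k-c) 4^(k-c)` -/
def StA : Prop := ∀ (k : ℕ) (E : Gr) (c : ℕ), Con k E → 1 < c → c < k → E 1 c → E c k →
  (∃ i j, 1 ≤ i ∧ i < c ∧ c < j ∧ j ≤ k ∧ E i j) → Dead k E

/-- JOB B: word `0^(b-1) 2^(a-1) 3 4^(k-b) 1^(k-a)` -/
def StB : Prop := ∀ (k : ℕ) (E : Gr) (a b : ℕ), Con k E → JF k E → 1 < b → b < a → a < k →
  E 1 b → E a k → Dead k E

/-- JOB C: word `2 1^(k-2) 3^(v-1) 0 4^(k-v)` -/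
def StC : Prop := ∀ (k : ℕ) (E : Gr) (u v : ℕ), Con k E → E 1 k →
  (∀ j, 1 < j → j < k → ¬ E 1 j) → 1 < u → u < v → v < k → E u v → Dead k E

/-- JOB E: word `0 1^(k-2) 2 3^(k-2) 4` -/
def StE : Prop := ∀ (k : ℕ) (E : Gr) (a b : ℕ), Con k E → 1 < a → a < b → b < k →
  E 1 k → E 1 b → E a k → Dead k E

/-- JOB F: word `1^(a-1) 0 1^(k-1-a) 2 3^(b-2) 4 3^(k-b)` -/
def StF : Prop := ∀ (k : ℕ) (E : Gr) (a a1 b b1 : ℕ), Con k E → ¬ E 1 k → 1 < a1 → a1 < a → a < b →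
  b < b1 → b1 < k → E 1 b → E 1 b1 → E a k → E a1 k →
  (∀ i, 1 ≤ i → i < k → E i k → i ≤ a) → (∀ j, 1 < j → j ≤ k → E 1 j → b ≤ j) → Dead k E

/-- JOB V2: word `0 1^(a-2) 4^a 3^(k-a-1) 1^(p-a) 2 1^(k-p)` -/
def StV2 : Prop := ∀ (k : ℕ) (E : Gr) (a b p m : ℕ), Lf k E a b → 1 < p → p < k → 1 < m → m < k →
  E 1 p → E 1 m → p ≠ m →
  Dead k E ∨ ∃ u, 2 ≤ u ∧ u < a ∧ Pend E 1 k u (a - 1) p

/-- JOB VA: word `0 1^(a-2) 4^a 3^(k-a-1) 1^(b-a) 2 1^(k-b)` -/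
def StVA : Prop := ∀ (k : ℕ) (E : Gr) (a b : ℕ), Lf2 k E a b → a + 2 ≤ b →
  Dead k E ∨ ∃ u, 1 ≤ u ∧ u < a ∧ Pend E 1 k u (a - 1) b

/-- JOB VB: word `0 1^(a-1) 4^a 3^(k-a-1) 1^(b-a-1) 2 1^(k-b)` -/
def StVB : Prop := ∀ (k : ℕ) (E : Gr) (a b : ℕ), Lf2 k E a b → a + 2 ≤ b →
  Dead k E ∨ ∃ j r, a + 1 ≤ j ∧ j < r ∧ b < r ∧ r < k ∧ Pend E 2 (k - 1) (a + 1) j r

/-- JOB VC: word `0 1^(b-2) 4^a 3^(k-a-1) 2 1^(k-b)` -/
def StVC : Prop := ∀ (k : ℕ) (E : Gr) (a b : ℕ), Lf2 k E a b → a + 2 ≤ b →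
  Dead k E ∨ (∃ u, a + 1 ≤ u ∧ u < b ∧ Pend E 1 k u (b - 1) b) ∨
  ∃ u r, a + 1 ≤ u ∧ u ≤ b ∧ b < r ∧ r < k ∧ Pend E 2 (k - 1) u (r - 1) r ∧
    ∀ x, u ≤ x → x ≤ b → ¬ E x r

/-- JOB S2: word `1^(a-1) 3^(a-1) 0 4 1^(k-1-a) 3^(k-1-a) 2` -/
def StS2 : Prop := ∀ (k : ℕ) (E : Gr) (a : ℕ), Lf2 k E a (a + 1) →
  (∀ i j, 1 ≤ i → i < j → j ≤ a → ¬ E i j) →
  (∀ i j, a + 1 ≤ i → i < j → j ≤ k → ¬ E i j) →
  Dead k E ∨ ∀ i j, 1 ≤ i → i < j → j ≤ k → E i j → j = a + 1 ∨ i = a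

/-- JOB S3: word `3^(a-1) 1^(a-1) 0 4 3^(k-1-a) 1^(k-1-a) 2` -/
def StS3 : Prop := ∀ (k : ℕ) (E : Gr) (a : ℕ), Lf2 k E a (a + 1) → ¬ E a (a + 1) →
  Dead k E ∨ ∃ (i : ℕ) (S : ℕ → Prop), 1 ≤ i ∧ i + 1 < a ∧ S i ∧ S (k - 1) ∧ ¬ S (i + 1) ∧ ¬ S a ∧
    ∀ u v, 1 ≤ u → u < v → v ≤ k → E u v → (S u ↔ ¬ S v) → u = i ∧ v = i + 1

/-- the set `1..i`, `j..k-1` -/
def InA (k i j x : ℕ) : Prop := x ≤ i ∨ (j ≤ x ∧ x < k)

/-- JOB Y: word `1^(a-1) 3^(v-1) 0 4^(k-v) 1^(k-1-a) 2` -/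
def StY : Prop := ∀ (k : ℕ) (E : Gr) (a y v : ℕ), Lf2 k E a (a + 1) → 1 ≤ y → y < v → v ≤ a →
  E y v → Dead k E ∨ ∃ i j, 1 ≤ i ∧ i < a ∧ a + 1 ≤ i + v ∧ a + 2 ≤ j ∧ j ≤ k ∧
    (∀ u w, 1 ≤ u → u < w → w ≤ k → u ≠ a + 1 → w ≠ a + 1 → E u w →
      (InA k i j u ↔ InA k i j w)) ∧ ∀ u, i < u → u ≤ a → ¬ E u (a + 1)

/-! ### combinations -/

/-- JOB M23 (StV2 →) -/
def StM23 : Prop := ∀ (k : ℕ) (E : Gr) (a b p m : ℕ), Lf k E a b → 1 < p → p < k → 1 < m → m < k →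
  E 1 p → E 1 m → p ≠ m → Dead k E

/-- JOB M1 (StMir → StVA → StVB → StVC →) -/
def StM1 : Prop := ∀ (k : ℕ) (E : Gr) (a b : ℕ), Lf2 k E a b → a + 2 ≤ b → Dead k E

/-- JOB M0 (StMir → StS2 → StS3 → StY →) -/
def StM0 : Prop := ∀ (k : ℕ) (E : Gr) (a : ℕ), Lf2 k E a (a + 1) →
  Dead k E ∨ ∀ i j, 1 ≤ i → i < j → j ≤ k → E i j → DD a i j

/-- JOB NEC (StMir → StA → StB → StC → StE → StF → StM23 → StM1 → StM0 →) -/
def StNec : Prop := ∀ (k : ℕ) (E : Gr), 2 ≤ k → Con k E → JF k E →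
  Dead k E ∨ ∃ a, 1 ≤ a ∧ a < k ∧ ∀ i j, 1 ≤ i → i < j → j ≤ k → E i j → DD a i j

/-! ### goodness -/

/-- JOB DEAD -/
def StDead : Prop := ∀ (k : ℕ) (E : Gr), 1 ≤ k → Dead k E → ¬ Gd 3 k E

/-- JOB SUF: double stars are 3-good -/
def StSuf : Prop := ∀ k a : ℕ, 1 ≤ a → a < k → Gd 3 k (DD a)

/-- JOB STAR: one-sided stars are n-good -/
def StStar : Prop := ∀ n k a : ℕ, 1 ≤ n → 2 ≤ k → (a = 1 ∨ a = k - 1) → Gd n k (DD a)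

/-- JOB N4: the other double stars are not 4-good -/
def StN4 : Prop := ∀ k a : ℕ, 1 < a → a + 1 < k → ¬ Gd 4 k (DD a)

/-- JOB MON -/
def StMon : Prop := ∀ (n k : ℕ) (E : Gr), 1 ≤ n → 1 ≤ k → Con k E → Gd (n + 1) k E → Gd n k E

/-- JOB JOIN: the two sides of a joint of a good graph are good -/
def StJoin : Prop := ∀ (n k c : ℕ) (E : Gr), 1 ≤ n → 1 < c → c < k → Con k E →
  (∀ i j, 1 ≤ i → i < c → c < j → j ≤ k → ¬ E i j) → Gd n k E →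
  Gd n c E ∧ Gd n (k - c + 1) (fun i j => E (i + c - 1) (j + c - 1))

/-- JOB CONC: concatenations of good graphs are good -/
def StConc : Prop := ∀ (n k c : ℕ) (E : Gr), 1 ≤ n → 1 ≤ c → c ≤ k →
  (∀ i j, 1 ≤ i → i < c → c < j → j ≤ k → ¬ E i j) → Gd n c E →
  Gd n (k - c + 1) (fun i j => E (i + c - 1) (j + c - 1)) → Gd n k E

/-- JOB HER (StNec → StDead → StSuf → StStar → StN4 → StMon → StJoin → StConc →) -/
def StHer : Prop := ∀ (n h k : ℕ) (H E : Gr), 1 ≤ n → 1 ≤ h → 1 ≤ k → Con h H → Con k E →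
  Cop h k H E → Gd n k E → Gd n h H

/-! ### the final form -/

/-- ordered copy of `H` in `G` -/
def OCopy {h k : ℕ} (H : SimpleGraph (Fin h)) (G : SimpleGraph (Fin k)) : Prop :=
  ∃ f : Fin h → Fin k, StrictMono f ∧ ∀ i j, H.Adj i j → G.Adj (f i) (f j)

/-- every red-blue colouring of the complete graph on `N` ordered vertices (`R` is the graph of the
red edges) contains a red ordered copy of `G` or a blue complete graph on `n` vertices -/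
def Arr {k : ℕ} (G : SimpleGraph (Fin k)) (n N : ℕ) : Prop := ∀ R : SimpleGraph (Fin N),
  OCopy G R ∨ OCopy (⊤ : SimpleGraph (Fin n)) Rᶜ

/-- the ordered Ramsey number of `G` and the complete graph on `n` vertices -/
noncomputable def oram {k : ℕ} (G : SimpleGraph (Fin k)) (n : ℕ) : ℕ := sInf {N | Arr G n N}

/-- `G` is connected and `n`-good -/
def NGood {k : ℕ} (n : ℕ) (G : SimpleGraph (Fin k)) : Prop :=
  G.Connected ∧ (∃ N, Arr G n N) ∧ oram G n = (n - 1) * (k - 1) + 1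

/-- JOB FIN (StHer →) -/
def StFin : Prop := ∀ (n h k : ℕ) (H : SimpleGraph (Fin h)) (G : SimpleGraph (Fin k)), 1 ≤ n →
  NGood n G → H.Connected → OCopy H G → NGood n H

end Pool.Agent.K7.H50.OG
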