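import Pool.Agent.K7.H50.OG.M1

set_option autoImplicit false

/-! JOB M0. -/

namespace Pool.Agent.K7.H50.OG

theorem minlow {E : Gr} {a : ℕ} (h : ∃ y v, 1 ≤ y ∧ y < v ∧ v ≤ a ∧ E y v) :
    ∃ y v, 1 ≤ y ∧ y < v ∧ v ≤ a ∧ E y v ∧ ∀ y' v', 1 ≤ y' → y' < v' → E y' v' → v ≤ v' := by
  classical
  obtain ⟨y, v, h1, h2, h3, h4⟩ := h
  have hex : ∃ v, ∃ y, 1 ≤ y ∧ y < v ∧ E y v := ⟨v, y, h1, h2, h4⟩
  obtain ⟨y0, a1, a2, a3⟩ := Nat.find_spec hex
  refine ⟨y0, Nat.find hex, a1, a2, ?_, a3, ?_⟩
  · exact (Nat.find_min' hex ⟨y, h1, h2, h4⟩).trans h3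
  · intro y' v' b1 b2 b3
    exact Nat.find_min' hex ⟨y', b1, b2, b3⟩

/-- the obstruction of the word Y -/
def TY (k : ℕ) (E : Gr) (a i j : ℕ) : Prop :=
  (∀ u w, 1 ≤ u → u < w → w ≤ k → u ≠ a + 1 → w ≠ a + 1 → E u w →
      (InA k i j u ↔ InA k i j w)) ∧ ∀ u, i < u → u ≤ a → ¬ E u (a + 1)

/-- if only the left part has an inner edge then there is no obstruction -/
theorem one_side {k : ℕ} {E : Gr} {a i j : ℕ} (h : Lf2 k E a (a + 1)) (hi : 1 ≤ i) (hia : i < a)
    (hj : a + 2 ≤ j) (hT : TY k E a i j)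
    (hR : ∀ u w, a + 1 ≤ u → u < w → w ≤ k → ¬ E u w) : False := by
  have ha := h.ha
  have hb := h.hb
  obtain ⟨u, w, h1, h2, h3, h4, h5⟩ := h.con (fun x => ¬ InA k i j x ∧ x ≠ a + 1)
    ⟨a, by omega, by omega, by unfold InA; omega⟩ ⟨1, le_rfl, by omega, by unfold InA; omega⟩
  by_cases c1 : u = a + 1
  · exact hR u w (by omega) h2 h3 h4
  · by_cases c2 : w = a + 1
    · have c3 : ¬ InA k i j u ∧ u ≠ a + 1 := h5.2 (fun hc => hc.2 c2)
      unfold InA at c3
      rw [c2] at h4
      exact hT.2 u (by omega) (by omega) h4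
    · have := hT.1 u w h1 h2 h3 c1 c2 h4
      tauto

theorem stM0 (hMir : StMir) (hS2 : StS2) (hS3 : StS3) (hY : StY) : StM0 := by
  classical
  intro k E a h
  by_cases hdead : Dead k E
  · exact Or.inl hdead
  right
  have ha := h.ha
  have hb := h.hb
  have hdead' : ¬ Dead k (rv k E) := fun hd => hdead (hMir k E hd)
  have h' := h.rv
  have ea' : k + 1 - (a + 1) = k - a := by omega
  have eb' : k + 1 - a = (k - a) + 1 := by omega
  rw [ea', eb'] at h'
  by_cases hL : ∃ y v, 1 ≤ y ∧ y < v ∧ v ≤ a ∧ E y v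
  · obtain ⟨y, v, y1, y2, y3, y4, ymin⟩ := minlow hL
    obtain ⟨i, j, i1, i2, i3, i4, i5, T⟩ := (hY k E a y v h y1 y2 y3 y4).resolve_left hdead
    exfalso
    by_cases hR : ∃ u w, a + 1 ≤ u ∧ u < w ∧ w ≤ k ∧ E u w
    · have hR' : ∃ y v, 1 ≤ y ∧ y < v ∧ v ≤ k - a ∧ rv k E y v := by
        obtain ⟨u, w, u1, u2, u3, u4⟩ := hR
        refine ⟨k + 1 - w, k + 1 - u, by omega, by omega, by omega, ?_⟩
        rw [rv_eq]
        have e1 : k + 1 - (k + 1 - u) = u := by omega
        have e2 : k + 1 - (k + 1 - w) = w := by omega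
        rw [e1, e2]
        exact u4
      obtain ⟨y', v', y1', y2', y3', y4', ymin'⟩ := minlow hR'
      obtain ⟨i', j', p1, p2, p3, p4, p5, T'⟩ :=
        (hY k (rv k E) (k - a) y' v' h' y1' y2' y3' y4').resolve_left hdead'
      have hne : ¬ E a (a + 1) := T.2 a i2 le_rfl
      have hne' : ¬ rv k E (k - a) (k - a + 1) := by
        rw [rv_eq]
        have e1 : k + 1 - (k - a + 1) = a := by omega
        have e2 : k + 1 - (k - a) = a + 1 := by omega
        rw [e1, e2]
        exact hne
      obtain ⟨s, S, s1, s2, s3, s4, s5, s6, s7⟩ := (hS3 k E a h hne).resolve_left hdead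
      obtain ⟨t, S', t1, t2, t3, t4, t5, t6, t7⟩ := (hS3 k (rv k E) (k - a) h' hne').resolve_left hdead'
      -- the vertex `s + 1` has a lower neighbour
      have hs : E s (s + 1) := by
        obtain ⟨u, w, h1, h2, h3, h4, h5⟩ := h.con S ⟨s, s1, by omega, s3⟩ ⟨a, by omega, by omega, s6⟩
        obtain ⟨r1, r2⟩ := s7 u w h1 h2 h3 h4 h5
        rw [r1, r2] at h4
        exact h4
      have ht : rv k E t (t + 1) := by
        obtain ⟨u, w, h1, h2, h3, h4, h5⟩ := h'.con S' ⟨t, t1, by omega, t3⟩
          ⟨k - a, by omega, by omega, t6⟩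
        obtain ⟨r1, r2⟩ := t7 u w h1 h2 h3 h4 h5
        rw [r1, r2] at h4
        exact h4
      have hv : v ≤ s + 1 := ymin s (s + 1) s1 (by omega) hs
      have hv' : v' ≤ t + 1 := ymin' t (t + 1) t1 (by omega) ht
      have hi2 : 2 ≤ i := by omega
      have hi2' : 2 ≤ i' := by omega
      -- the sets `A`, `A'`
      have hA2 : InA k i j 2 := Or.inl hi2
      have hAb : ¬ InA k i j (a + 1) := by unfold InA; omega
      have hAa : ¬ InA k i j a := by unfold InA; omega
      -- `S'` in the original order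
      have hj : j ≤ k - t := by
        obtain ⟨u, w, h1, h2, h3, h4, h5⟩ := h.con (fun x => S' (k + 1 - x) ∧ InA k i j x)
          ⟨2, by omega, by omega, by
            have : k + 1 - 2 = k - 1 := by omega
            rw [this]
            exact t4, hA2⟩ ⟨a + 1, by omega, by omega, fun hc => hAb hc.2⟩
        have hbS : ¬ S' (k + 1 - (a + 1)) := by
          rw [ea']
          exact t6
        have h4' : rv k E (k + 1 - w) (k + 1 - u) := by
          rw [rv_eq]
          have e1 : k + 1 - (k + 1 - u) = u := by omega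
          have e2 : k + 1 - (k + 1 - w) = w := by omega
          rw [e1, e2]
          exact h4
        have key := t7 (k + 1 - w) (k + 1 - u) (by omega) (by omega) (by omega) h4'
        by_cases c1 : u = a + 1
        · rw [c1] at h5
          have c2 : S' (k + 1 - w) ∧ InA k i j w := by
            by_contra hc
            exact hAb ((h5.2 hc).2)
          have c3 := key (by rw [c1]; exact ⟨fun _ => hbS, fun _ => c2.1⟩)
          omega
        · by_cases c2 : w = a + 1
          · rw [c2] at h5
            have c3 : S' (k + 1 - u) ∧ InA k i j u := h5.2 (fun hc => hAb hc.2)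
            have c4 := key (by
              rw [c2]
              exact ⟨fun hx => absurd hx hbS, fun hx => absurd c3.1 hx⟩)
            omega
          · have c3 := T.1 u w h1 h2 h3 c1 c2 h4
            have c5 : S' (k + 1 - w) ↔ ¬ S' (k + 1 - u) := by tauto
            have c6 : InA k i j u := by
              by_contra hc
              exact hc (h5.2 (fun y => hc (c3.2 y.2))).2
            obtain ⟨r1, r2⟩ := key c5
            have hu : u = k - t := by omega
            unfold InA at c6
            omega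
      -- the intersection of `A` and `A'`
      have hk1 : InA k i j (k - 1) := Or.inr ⟨by omega, by omega⟩
      have hk1' : InA k i' j' (k + 1 - (k - 1)) := by
        have : k + 1 - (k - 1) = 2 := by omega
        rw [this]
        exact Or.inl hi2'
      have hAa' : ¬ InA k i' j' (k + 1 - a) := by unfold InA; omega
      have hAb' : ¬ InA k i' j' (k + 1 - (a + 1)) := by unfold InA; omega
      obtain ⟨u, w, h1, h2, h3, h4, h5⟩ := h.con
        (fun x => InA k i j x ∧ InA k i' j' (k + 1 - x)) ⟨k - 1, by omega, by omega, hk1, hk1'⟩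
        ⟨a, by omega, by omega, fun hc => hAa hc.1⟩
      have h4' : rv k E (k + 1 - w) (k + 1 - u) := by
        rw [rv_eq]
        have e1 : k + 1 - (k + 1 - u) = u := by omega
        have e2 : k + 1 - (k + 1 - w) = w := by omega
        rw [e1, e2]
        exact h4
      have q1 : u ≠ a + 1 → w ≠ a + 1 → (InA k i j u ↔ InA k i j w) := fun c1 c2 =>
        T.1 u w h1 h2 h3 c1 c2 h4
      have q2 : u ≠ a → w ≠ a → (InA k i' j' (k + 1 - u) ↔ InA k i' j' (k + 1 - w)) := by
        intro c1 c2
        have := T'.1 (k + 1 - w) (k + 1 - u) (by omega) (by omega) (by omega) (by omega) (by omega) h4'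
        exact this.symm
      by_cases c1 : u = a + 1
      · rw [c1] at h5 q2
        have := q2 (by omega) (by omega)
        tauto
      · by_cases c2 : w = a + 1
        · rw [c2] at h5 q2
          by_cases c3 : u = a
          · rw [c3] at h5
            tauto
          · have := q2 c3 (by omega)
            tauto
        · have q3 := q1 c1 c2
          by_cases c3 : u = a
          · rw [c3] at h5 q3
            tauto
          · by_cases c4 : w = a
            · rw [c4] at h5 q3
              tauto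
            · have := q2 c3 c4
              tauto
    · exact one_side h i1 i2 i4 T (fun u w u1 u2 u3 u4 => hR ⟨u, w, u1, u2, u3, u4⟩)
  · by_cases hR : ∃ u w, a + 1 ≤ u ∧ u < w ∧ w ≤ k ∧ E u w
    · exfalso
      have hR' : ∃ y v, 1 ≤ y ∧ y < v ∧ v ≤ k - a ∧ rv k E y v := by
        obtain ⟨u, w, u1, u2, u3, u4⟩ := hR
        refine ⟨k + 1 - w, k + 1 - u, by omega, by omega, by omega, ?_⟩
        rw [rv_eq]
        have e1 : k + 1 - (k + 1 - u) = u := by omega
        have e2 : k + 1 - (k + 1 - w) = w := by omega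
        rw [e1, e2]
        exact u4
      obtain ⟨y', v', y1', y2', y3', y4', -⟩ := minlow hR'
      obtain ⟨i', j', p1, p2, p3, p4, p5, T'⟩ :=
        (hY k (rv k E) (k - a) y' v' h' y1' y2' y3' y4').resolve_left hdead'
      refine one_side h' p1 p2 p4 T' (fun u w u1 u2 u3 u4 => hL ?_)
      rw [rv_eq] at u4
      exact ⟨k + 1 - w, k + 1 - u, by omega, by omega, by omega, u4⟩
    · intro i j i1 i2 i3 i4
      rcases (hS2 k E a h (fun u w u1 u2 u3 u4 => hL ⟨u, w, u1, u2, u3, u4⟩)
        (fun u w u1 u2 u3 u4 => hR ⟨u, w, u1, u2, u3, u4⟩)).resolve_left hdead i j i1 i2 i3 i4 with h1 | h1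
      · left
        omega
      · right
        omega

end Pool.Agent.K7.H50.OG
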