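import Pool.Agent.K7.H50.OG.Basic

set_option autoImplicit false

/-! JOB M1, and reversal lemmas. -/

namespace Pool.Agent.K7.H50.OG

/-- the reversed graph -/
def rv (k : ℕ) (E : Gr) : Gr := fun i j => E (k + 1 - j) (k + 1 - i)

/-- adjacency -/
def Ad (E : Gr) (u w : ℕ) : Prop := (u < w ∧ E u w) ∨ (w < u ∧ E w u)

theorem Ad.symm {E : Gr} {u w : ℕ} (h : Ad E u w) : Ad E w u := h.elim Or.inr Or.inl

theorem rv_eq {k : ℕ} {E : Gr} {i j : ℕ} : rv k E i j ↔ E (k + 1 - j) (k + 1 - i) := Iff.rfl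

theorem Con.rv {k : ℕ} {E : Gr} (h : Con k E) : Con k (rv k E) := by
  intro S h1 h2
  obtain ⟨i, i1, i2, i3⟩ := h1
  obtain ⟨j, j1, j2, j3⟩ := h2
  obtain ⟨u, w, a1, a2, a3, a4, a5⟩ := h (fun x => S (k + 1 - x))
    ⟨k + 1 - i, by omega, by omega, by
      have : k + 1 - (k + 1 - i) = i := by omega
      simpa only [this] using i3⟩
    ⟨k + 1 - j, by omega, by omega, by
      have : k + 1 - (k + 1 - j) = j := by omega
      simpa only [this] using j3⟩
  refine ⟨k + 1 - w, k + 1 - u, by omega, by omega, by omega, ?_, ?_⟩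
  · rw [rv_eq]
    have e1 : k + 1 - (k + 1 - u) = u := by omega
    have e2 : k + 1 - (k + 1 - w) = w := by omega
    rw [e1, e2]
    exact a4
  · tauto

theorem Lf2.rv {k : ℕ} {E : Gr} {a b : ℕ} (h : Lf2 k E a b) :
    Lf2 k (rv k E) (k + 1 - b) (k + 1 - a) := by
  have h1 := h.ha
  have h2 := h.hab
  have h3 := h.hb
  have ea : k + 1 - (k + 1 - a) = a := by omega
  have eb : k + 1 - (k + 1 - b) = b := by omega
  have e1 : k + 1 - k = 1 := by omega
  have ek : k + 1 - 1 = k := by omega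
  refine ⟨⟨h.con.rv, by omega, by omega, by omega, ?_, ?_, ?_, ?_⟩, ?_⟩
  · rw [rv_eq, ea, ek]
    exact h.ek
  · rw [rv_eq, eb, e1]
    exact h.e1
  · intro i i1 i2 i3
    rw [rv_eq, e1] at i3
    have := h.v1 _ (by omega) (by omega) i3
    omega
  · intro j j1 j2 j3
    rw [rv_eq, ek] at j3
    have := h.uk _ (by omega) (by omega) j3
    omega
  · intro j j1 j2 j3
    rw [rv_eq, ek] at j3
    have := h.uk _ (by omega) (by omega) j3
    omega

theorem Pend.out {E : Gr} {lo hi u v r x w : ℕ} (h : Pend E lo hi u v r) (hx : u ≤ x ∧ x ≤ v)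
    (hw : ¬ (u ≤ w ∧ w ≤ v)) (h1 : lo ≤ x ∧ x ≤ hi) (h2 : lo ≤ w ∧ w ≤ hi) (ha : Ad E x w) :
    w = r := by
  rcases ha with ⟨h3, h4⟩ | ⟨h3, h4⟩
  · exact (h x w h1.1 h3 h2.2 h4).1 hx hw
  · exact (h w x h2.1 h3 h1.2 h4).2 hx hw

/-- reversal of a pendant interval -/
theorem Pend.rv {k : ℕ} {E : Gr} {lo hi u v r : ℕ} (h : Pend (rv k E) lo hi u v r) (hlo : 1 ≤ lo)
    (hhi : hi ≤ k) (hr : r ≤ k) (hv : v ≤ k) (huv : u ≤ v) :
    Pend E (k + 1 - hi) (k + 1 - lo) (k + 1 - v) (k + 1 - u) (k + 1 - r) := by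
  intro i j h1 h2 h3 h4
  have e1 : k + 1 - (k + 1 - i) = i := by omega
  have e2 : k + 1 - (k + 1 - j) = j := by omega
  have h5 := h (k + 1 - j) (k + 1 - i) (by omega) (by omega) (by omega) (by
    rw [rv_eq, e1, e2]
    exact h4)
  constructor
  · intro h6 h7
    have := h5.2 (by omega) (by omega)
    omega
  · intro h6 h7
    have := h5.1 (by omega) (by omega)
    omega

/-- the edges that leave an interval away from `a`, `b` -/
theorem leave {k : ℕ} {E : Gr} {a b : ℕ} (h : Lf2 k E a b) {s t : ℕ} (hs : 2 ≤ s) (hst : s ≤ t)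
    (ht : t < k) (hb : b < s ∨ t < b) (ha : a < s ∨ t < a) :
    ∃ x w, (s ≤ x ∧ x ≤ t) ∧ (2 ≤ w ∧ w < k) ∧ ¬ (s ≤ w ∧ w ≤ t) ∧ Ad E x w := by
  obtain ⟨i, j, h1, h2, h3, h4, h5⟩ := h.con (fun x => s ≤ x ∧ x ≤ t) ⟨s, by omega, by omega, by omega⟩
    ⟨1, le_rfl, by omega, by omega⟩
  have hj1 : i = 1 → j = b := fun e => h.v1 j (by omega) h3 (by rw [← e]; exact h4)
  have hik : j = k → i = a := fun e => h.uk i h1 (by omega) (by rw [← e]; exact h4)
  by_cases hi : s ≤ i ∧ i ≤ t
  · have hj : ¬ (s ≤ j ∧ j ≤ t) := h5.1 hi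
    refine ⟨i, j, hi, ⟨by omega, ?_⟩, hj, Or.inl ⟨h2, h4⟩⟩
    by_contra hc
    have : j = k := by omega
    have := hik this
    omega
  · have hj : s ≤ j ∧ j ≤ t := by
      by_contra hc
      exact hi (h5.2 hc)
    refine ⟨j, i, hj, ⟨?_, by omega⟩, hi, Or.inr ⟨h2, h4⟩⟩
    by_contra hc
    have : i = 1 := by omega
    have := hj1 this
    omega

theorem stM1 (hMir : StMir) (hVA : StVA) (hVB : StVB) (hVC : StVC) : StM1 := by
  intro k E a b h hab
  have ha := h.ha
  have hb := h.hb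
  have hbk := h.hb
  by_contra hdead
  have hdead' : ¬ Dead k (rv k E) := fun hd => hdead (hMir k E hd)
  have h' := h.rv
  have hab' : k + 1 - b + 2 ≤ k + 1 - a := by omega
  obtain ⟨j, r, j1, j2, j3, j4, P⟩ := (hVB k E a b h hab).resolve_left hdead
  obtain ⟨j0, r0, i1, i2, i3, i4, P0⟩ := (hVB k _ _ _ h' hab').resolve_left hdead'
  -- the mirrored interval
  have P' := P0.rv (by omega) (by omega) (by omega) (by omega) (by omega)
  have e1 : k + 1 - (k - 1) = 2 := by omega
  have e2 : k + 1 - 2 = k - 1 := by omega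
  have e3 : k + 1 - (k + 1 - b + 1) = b - 1 := by omega
  rw [e1, e2, e3] at P'
  obtain ⟨j', hj'⟩ : ∃ j', j' = k + 1 - j0 := ⟨_, rfl⟩
  obtain ⟨r', hr'⟩ : ∃ r', r' = k + 1 - r0 := ⟨_, rfl⟩
  rw [← hj', ← hr'] at P'
  have k1 : j' ≤ b - 1 := by omega
  have k2 : r' < j' := by omega
  have k3 : r' < a := by omega
  have k4 : 1 < r' := by omega
  rcases (hVC k _ _ _ h' hab').resolve_left hdead' with ⟨u, u1, u2, Q⟩ | ⟨u, q, u1, u2, q1, q2, Q, Q'⟩
  · -- an interval pendant on `a`
    have Q1 := Q.rv (by omega) (by omega) (by omega) (by omega) (by omega)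
    have e4 : k + 1 - k = 1 := by omega
    have e5 : k + 1 - 1 = k := by omega
    have e6 : k + 1 - (k + 1 - a - 1) = a + 1 := by omega
    have e7 : k + 1 - (k + 1 - a) = a := by omega
    rw [e4, e5, e6, e7] at Q1
    obtain ⟨x, w, x1, w1, w2, had⟩ := leave h (s := a + 1) (t := min (k + 1 - u) j) (by omega)
      (by omega) (by omega) (by omega) (by omega)
    by_cases c1 : a + 1 ≤ w ∧ w ≤ j
    · have c2 : ¬ (a + 1 ≤ w ∧ w ≤ k + 1 - u) := by omega
      have c3 := Q1.out (x := x) (w := w) (by omega) c2 (by omega) (by omega) had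
      omega
    · have c3 := P.out (x := x) (w := w) (by omega) c1 (by omega) (by omega) had
      have c2 : ¬ (a + 1 ≤ w ∧ w ≤ k + 1 - u) := by omega
      have c4 := Q1.out (x := x) (w := w) (by omega) c2 (by omega) (by omega) had
      omega
  · have Q1 := Q.rv (by omega) (by omega) (by omega) (by omega) (by omega)
    rw [e1, e2] at Q1
    have e4 : k + 1 - (q - 1) = (k + 1 - q) + 1 := by omega
    rw [e4] at Q1
    obtain ⟨r2, hr2⟩ : ∃ r2, r2 = k + 1 - q := ⟨_, rfl⟩
    obtain ⟨u2', hu2⟩ : ∃ u2', u2' = k + 1 - u := ⟨_, rfl⟩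
    rw [← hr2, ← hu2] at Q1
    have m1 : 1 < r2 := by omega
    have m2 : r2 < a := by omega
    have m3 : a ≤ u2' := by omega
    have m4 : u2' ≤ b - 1 := by omega
    -- `u2' = a`
    have m5 : u2' = a := by
      by_contra hne
      obtain ⟨x, w, x1, w1, w2, had⟩ := leave h (s := a + 1) (t := min u2' j) (by omega)
        (by omega) (by omega) (by omega) (by omega)
      by_cases c1 : a + 1 ≤ w ∧ w ≤ j
      · have c2 : ¬ (r2 + 1 ≤ w ∧ w ≤ u2') := by omega
        have c3 := Q1.out (x := x) (w := w) (by omega) c2 (by omega) (by omega) had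
        omega
      · have c3 := P.out (x := x) (w := w) (by omega) c1 (by omega) (by omega) had
        have c2 : ¬ (r2 + 1 ≤ w ∧ w ≤ u2') := by omega
        have c4 := Q1.out (x := x) (w := w) (by omega) c2 (by omega) (by omega) had
        omega
    rw [m5] at Q1
    have m6 : ¬ E r2 a := by
      have h1 := Q' (k + 1 - a) (by omega) le_rfl
      rw [rv_eq, ← hr2] at h1
      have e5 : k + 1 - (k + 1 - a) = a := by omega
      rwa [e5] at h1
    -- a neighbour `w0` of `a` inside `r2 .. a - 1`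
    have m7 : ∃ w, r2 ≤ w ∧ w < a ∧ E w a := by
      obtain ⟨i, l, h1, h2, h3, h4, h5⟩ := h.con (fun x => x = a ∨ x = k)
        ⟨a, by omega, by omega, Or.inl rfl⟩ ⟨1, le_rfl, by omega, by omega⟩
      by_cases hi : i = a ∨ i = k
      · have hia : i = a := by omega
        have hl : ¬ (l = a ∨ l = k) := h5.1 hi
        rw [hia] at h4
        have := Q1.out (x := a) (w := l) (by omega) (by omega) (by omega) (by omega)
          (Or.inl ⟨by omega, h4⟩)
        omega
      · have hl : l = a ∨ l = k := by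
          by_contra hc
          exact hi (h5.2 hc)
        rcases hl with hl | hl
        · rw [hl] at h4 h2
          have hi1 : i ≠ 1 := by
            intro e
            rw [e] at h4
            have := h.v1 a (by omega) (by omega) h4
            omega
          by_cases c : r2 + 1 ≤ i ∧ i ≤ a
          · exact ⟨i, by omega, by omega, h4⟩
          · have := Q1.out (x := a) (w := i) (by omega) c (by omega) (by omega)
              (Or.inr ⟨by omega, h4⟩)
            exact ⟨i, by omega, by omega, h4⟩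
        · rw [hl] at h4
          have := h.uk i h1 (by omega) h4
          exact absurd (Or.inl this) hi
    obtain ⟨w0, w01, w02, w03⟩ := m7
    have m8 : r2 ≠ w0 := by
      rintro rfl
      exact m6 w03
    obtain ⟨u3, v1, v2, T⟩ := (hVA k E a b h hab).resolve_left hdead
    obtain ⟨x, w, x1, w1, w2, had⟩ := leave h (s := max (max u3 2) (r2 + 1)) (t := a - 1) (by omega)
      (by omega) (by omega) (by omega) (by omega)
    have hw : w = r2 ∧ u3 ≤ r2 := by
      by_cases c1 : u3 ≤ w ∧ w ≤ a - 1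
      · have c2 : ¬ (r2 + 1 ≤ w ∧ w ≤ a) := by omega
        have c3 := Q1.out (x := x) (w := w) (by omega) c2 (by omega) (by omega) had
        omega
      · have c3 := T.out (x := x) (w := w) (by omega) c1 (by omega) (by omega) had
        have c2 : ¬ (r2 + 1 ≤ w ∧ w ≤ a) := by omega
        have c4 := Q1.out (x := x) (w := w) (by omega) c2 (by omega) (by omega) had
        omega
    have := T.out (x := w0) (w := a) (by omega) (by omega) (by omega) (by omega)
      (Or.inl ⟨w02, w03⟩)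
    omega

end Pool.Agent.K7.H50.OG
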